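import Pool.Agent.Y192.FN.Defs
import Pool.Agent.Y180.FG.Fadm

/-!
Maps from curves to the covers of closed subsets of projective space are admissible points of the
torus.
-/

set_option autoImplicit false

namespace Pool.Agent.Y212.FN

open MvPolynomial FF Pool.Agent.W603.LV Pool.Agent.W603.PV Pool.Agent.Y192.OG Pool.Agent.Y192.FA
open Pool.Agent.Y192.KC (Cov ZCov laur md)
open Pool.Agent.Y641.KZ (form form_ep)
open Pool.Agent.Y192.FN

theorem t_nadm : St_nadm := by
  intro n r X m hm he K _ _ x hx c S u v hu hM hcx hS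
  have h0 : u 0 ≠ 0 := hu 0
  have hI : ∀ f ∈ X.I, aeval (fun i => u i ^ m) f = 0 := hM.sol.mem
  have hE : ∀ j, v j ^ X.e j = aeval (fun i => u i ^ m) (X.F j) := hM.sol.eqn
  have hep : ∀ {f : MvPolynomial (Fin (n + 1)) ℂ} {k : ℕ}, f.IsHomogeneous k →
      ep c.x (laur f) = aeval (fun i => u i ^ m) f / u 0 ^ (m * k) :=
    fun hf => Pool.Agent.Y180.FG.ep_form c.x u m h0 hcx hf
  have hord : ∀ (f : MvPolynomial (Fin (n + 1)) ℂ) (k : ℕ), f.IsHomogeneous k →
      c.ev (laur f) ≠ 0 → ∀ z : c.P, c.ord z (c.ev (laur f)) =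
        ((z.ord (aeval (fun i => u i ^ m) f) - (m * k : ℕ) * z.ord (u 0) : ℤ) : WithTop ℤ) := by
    intro f k hf h z
    have h1 : ep c.x (laur f) ≠ 0 := fun h1 => h ((ev_eq_zero c _).mpr h1)
    rw [c.ord_of_ne h, coe_ev, hep hf]
    rw [hep hf] at h1
    have h2 : aeval (fun i => u i ^ m) f ≠ 0 := fun h2 => h1 (by rw [h2, zero_div])
    rw [z.ord_div h2 (pow_ne_zero _ h0), z.ord_pow]
  refine ⟨⟨fun i z _ => ?_, fun j => ?_⟩, fun g hg => ?_⟩
  · rw [hcx, z.ord_pow]
    exact Dvd.intro _ rfl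
  · refine Fin.cases ?_ (fun j => ?_) j
    · intro h z hz
      have h1 : c.ord z (c.ev (X.FL 0)) = _ := hord X.G X.q X.hG h z
      have h2 : z.ord (aeval (fun i => u i ^ m) X.G) = m * X.q * pord z u :=
        hM.off z (fun h3 => hz (hS z h3))
      refine ⟨X.q * (pord z u - z.ord (u 0)), ?_⟩
      rw [h1, h2]
      have h5 : md m (X.eL 0) = m := if_pos rfl
      rw [h5]
      congr 1
      push_cast
      ring
    · intro h z hz
      have h1 : c.ord z (c.ev (X.FL j.succ)) = _ := hord (X.F j) (X.d j) (X.hF j) h z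
      have hw : X.e j * X.wt m j = m * X.d j := by
        unfold Cov.wt
        exact Nat.mul_div_cancel' ((he j).mul_right _)
      refine ⟨z.ord (v j) - X.wt m j * z.ord (u 0), ?_⟩
      rw [h1, ← hE j, z.ord_pow]
      have h5 : md m (X.eL j.succ) = X.e j := if_neg (X.he j).ne'
      rw [h5, ← hw]
      congr 1
      push_cast
      ring
  · obtain ⟨k, b, Q, hQ, hQl⟩ := form g
    have hQI : Q ∈ X.I := (hx Q k hQ).mp ((form_ep x hQl).mpr hg)
    rw [ev_eq_zero]
    apply (form_ep c.x hQl).mp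
    rw [hep hQ, hI Q hQI, zero_div]

end Pool.Agent.Y212.FN
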